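import Pool.Agent.Helper60.BFT.GoalsC

/-!
Packet FU (MP_74f661_nt): the fundamental lemma for the small classes.
-/

set_option autoImplicit false

open Finset Filter Topology MeasureTheory ProbabilityTheory
open Pool.Agent.Helper90.Twin (Ps Gz GG Sz SieveSys Adm wI cc avgI sig Hf Yf Phi XX nu mem_Ps
  Ps_mono card_root fundamental wI_prod wI_mean one_sub_prod_le_sum sum_range_shift_periodic
  sum_two_mul)
open Pool.Agent.Helper60.BFT

namespace Pool.Agent.Helper32.BFT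

theorem yA_zero_one (A : ℕ → ℕ) (p t : ℕ) : yA A p t = 0 ∨ yA A p t = 1 := by
  unfold yA
  split_ifs
  · exact Or.inr rfl
  · exact Or.inl rfl

theorem yA_nonneg (A : ℕ → ℕ) (p t : ℕ) : 0 ≤ yA A p t := by
  rcases yA_zero_one A p t with h | h <;> rw [h]; norm_num

theorem yA_le_one (A : ℕ → ℕ) (p t : ℕ) : yA A p t ≤ 1 := by
  rcases yA_zero_one A p t with h | h <;> rw [h]; norm_num

theorem not_bothA {A : ℕ → ℕ} {p k : ℕ} (h5 : 5 ≤ p) :
    ¬ (p ∣ 6 * k + A p ∧ p ∣ 6 * k + (A p + 2)) := by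
  rintro ⟨h1, h2⟩
  have h3 : p ∣ (6 * k + (A p + 2)) - (6 * k + A p) := Nat.dvd_sub h2 h1
  have h4 : (6 * k + (A p + 2)) - (6 * k + A p) = 2 := by omega
  rw [h4] at h3
  have := Nat.le_of_dvd (by norm_num) h3
  omega

theorem yA_sum (A : ℕ → ℕ) {p : ℕ} (hp : p.Prime) (h5 : 5 ≤ p) :
    ∑ x ∈ range p, yA A p x = 2 := by
  have h1 : ∀ x, yA A p x = (if p ∣ 6 * x + A p then (1 : ℝ) else 0)
      + (if p ∣ 6 * x + (A p + 2) then (1 : ℝ) else 0) := by
    intro x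
    have h0 := not_bothA (A := A) (k := x) h5
    unfold yA bad
    rw [add_assoc (6 * x) (A p) 2]
    by_cases ha : p ∣ 6 * x + A p <;> by_cases hb : p ∣ 6 * x + (A p + 2) <;> simp [ha, hb]
    exact absurd ⟨ha, hb⟩ h0
  simp_rw [h1]
  rw [Finset.sum_add_distrib, Finset.sum_boole, Finset.sum_boole, card_root hp h5,
    card_root hp h5]
  norm_num

theorem badA_per (A : ℕ → ℕ) (p x : ℕ) : bad A p (x + p) ↔ bad A p x := by
  unfold bad
  have h1 : 6 * (x + p) + A p = 6 * x + A p + p * 6 := by ring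
  have h2 : 6 * x + A p + p * 6 + 2 = 6 * x + A p + 2 + p * 6 := by ring
  rw [h1, h2, Nat.dvd_add_left (Dvd.intro 6 rfl : p ∣ p * 6),
    Nat.dvd_add_left (Dvd.intro 6 rfl : p ∣ p * 6)]

theorem yA_per (A : ℕ → ℕ) (p x : ℕ) : yA A p (x + p) = yA A p x := by
  unfold yA
  classical
  by_cases h : bad A p x
  · rw [if_pos h, if_pos ((badA_per A p x).2 h)]
  · rw [if_neg h, if_neg (fun h' => h ((badA_per A p x).1 h'))]

theorem sieveSysA (A : ℕ → ℕ) (z : ℕ) : SieveSys (Ps z) (yA A) where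
  odd := by
    intro p hp
    rw [mem_Ps] at hp
    exact hp.2.2.odd_of_ne_two (by omega)
  five := fun p hp => (mem_Ps.1 hp).1
  cop := by
    intro p hp q hq hpq
    have h1 := (mem_Ps.1 (Finset.mem_coe.1 hp)).2.2
    have h2 := (mem_Ps.1 (Finset.mem_coe.1 hq)).2.2
    exact (Nat.coprime_primes h1 h2).2 hpq
  zero_one := fun p _ x => yA_zero_one A p x
  per := fun p _ x => yA_per A p x
  two := by
    intro p hp
    rw [mem_Ps] at hp
    exact yA_sum A hp.2.2 hp.1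

theorem separatedA (A : ℕ → ℕ) {p H : ℕ} (hp : p.Prime) (hH : 3 * H + 1 < p) (h5 : 5 ≤ p)
    (t i j : ℕ) (hi : i ≤ H) (hj : j ≤ H) (hij : i ≠ j) (h1 : yA A p (t + i) = 1) :
    yA A p (t + j) = 0 := by
  have hb1 : bad A p (t + i) := by
    unfold yA at h1
    by_contra h
    rw [if_neg h] at h1
    norm_num at h1
  unfold yA
  rw [if_neg]
  intro hb2
  have hpZ : Prime (p : ℤ) := Nat.prime_iff_prime_int.1 hp
  have key : ∀ e : ℤ, (e = 0 ∨ e = 1 ∨ e = -1) →
      (p : ℤ) ∣ 2 * (3 * ((i : ℤ) - j) + e) → False := by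
    intro e he hdvd
    rcases hpZ.dvd_or_dvd hdvd with h | h
    · have := Int.le_of_dvd (by norm_num) h
      omega
    · have h2 : |3 * ((i : ℤ) - j) + e| < p := by
        rw [abs_lt]
        constructor <;> omega
      have h3 := Int.eq_zero_of_abs_lt_dvd h h2
      omega
  rcases hb1 with ha | ha <;> rcases hb2 with hb | hb
  · apply key 0 (Or.inl rfl)
    have h2 : (p : ℤ) ∣ ((6 * (t + i) + A p : ℕ) : ℤ) - ((6 * (t + j) + A p : ℕ) : ℤ) :=
      dvd_sub (Int.natCast_dvd_natCast.2 ha) (Int.natCast_dvd_natCast.2 hb)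
    push_cast at h2
    have h3 : 6 * ((t : ℤ) + i) + (A p : ℤ) - (6 * ((t : ℤ) + j) + (A p : ℤ))
        = 2 * (3 * ((i : ℤ) - j) + 0) := by
      ring
    rwa [h3] at h2
  · apply key (-1) (Or.inr (Or.inr rfl))
    have h2 : (p : ℤ) ∣ ((6 * (t + i) + A p : ℕ) : ℤ) - ((6 * (t + j) + A p + 2 : ℕ) : ℤ) :=
      dvd_sub (Int.natCast_dvd_natCast.2 ha) (Int.natCast_dvd_natCast.2 hb)
    push_cast at h2
    have h3 : 6 * ((t : ℤ) + i) + (A p : ℤ) - (6 * ((t : ℤ) + j) + (A p : ℤ) + 2)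
        = 2 * (3 * ((i : ℤ) - j) + (-1)) := by
      ring
    rwa [h3] at h2
  · apply key 1 (Or.inr (Or.inl rfl))
    have h2 : (p : ℤ) ∣ ((6 * (t + i) + A p + 2 : ℕ) : ℤ) - ((6 * (t + j) + A p : ℕ) : ℤ) :=
      dvd_sub (Int.natCast_dvd_natCast.2 ha) (Int.natCast_dvd_natCast.2 hb)
    push_cast at h2
    have h3 : 6 * ((t : ℤ) + i) + (A p : ℤ) + 2 - (6 * ((t : ℤ) + j) + (A p : ℤ))
        = 2 * (3 * ((i : ℤ) - j) + 1) := by
      ring
    rwa [h3] at h2
  · apply key 0 (Or.inl rfl)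
    have h2 : (p : ℤ) ∣ ((6 * (t + i) + A p + 2 : ℕ) : ℤ) - ((6 * (t + j) + A p + 2 : ℕ) : ℤ) :=
      dvd_sub (Int.natCast_dvd_natCast.2 ha) (Int.natCast_dvd_natCast.2 hb)
    push_cast at h2
    have h3 : 6 * ((t : ℤ) + i) + (A p : ℤ) + 2 - (6 * ((t : ℤ) + j) + (A p : ℤ) + 2)
        = 2 * (3 * ((i : ℤ) - j) + 0) := by
      ring
    rwa [h3] at h2

theorem wI_admA (A : ℕ → ℕ) {I : Finset ℕ} : Adm (wI (yA A) I) (2 * (I.card : ℝ)) := by
  have hy0 := yA_nonneg A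
  have hy1 := yA_le_one A
  have hprod0 : ∀ p t, 0 ≤ ∏ i ∈ I, (1 - yA A p (t + i)) := fun p t =>
    Finset.prod_nonneg (fun i _ => by linarith [hy1 p (t + i)])
  have hprod1 : ∀ p t, ∏ i ∈ I, (1 - yA A p (t + i)) ≤ 1 := fun p t =>
    Finset.prod_le_one (fun i _ => by linarith [hy1 p (t + i)])
      (fun i _ => by linarith [hy0 p (t + i)])
  refine ⟨?_, ?_, ?_, ?_⟩
  · intro p _ _ x
    unfold wI
    linarith [hprod1 p x]
  · intro p _ _ x
    unfold wI
    linarith [hprod0 p x]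
  · intro p _ _ x
    unfold wI
    congr 1
    apply Finset.prod_congr rfl
    intro i _
    have h2 : x + p + i = x + i + p := by ring
    rw [h2, yA_per]
  · intro p hp h5
    unfold nu wI
    calc ∑ x ∈ range p, (1 - ∏ i ∈ I, (1 - yA A p (x + i)))
        ≤ ∑ x ∈ range p, ∑ i ∈ I, yA A p (x + i) := by
          apply Finset.sum_le_sum
          intro x _
          exact one_sub_prod_le_sum (fun i _ => hy0 p _) (fun i _ => hy1 p _)
      _ = ∑ i ∈ I, (2 : ℝ) := by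
          rw [Finset.sum_comm]
          apply Finset.sum_congr rfl
          intro i _
          rw [← yA_sum A hp h5, ← sum_range_shift_periodic (yA_per A p) i]
          apply Finset.sum_congr rfl
          intro j _
          rw [add_comm]
      _ = 2 * (I.card : ℝ) := by
          rw [Finset.sum_const, nsmul_eq_mul]
          ring

theorem adm_yA (A : ℕ → ℕ) : Adm (yA A) 2 :=
  ⟨fun p _ _ x => yA_nonneg A p x, fun p _ _ x => yA_le_one A p x,
   fun p _ _ x => yA_per A p x, fun _ hp h5 => (yA_sum A hp h5).le⟩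

theorem adm_yA2 (A : ℕ → ℕ) : Adm (fun p t => yA A p (2 * t)) 2 := by
  refine ⟨fun p _ _ x => yA_nonneg A p _, fun p _ _ x => yA_le_one A p _, ?_, ?_⟩
  · intro p _ _ x
    show yA A p (2 * (x + p)) = yA A p (2 * x)
    rw [show 2 * (x + p) = 2 * x + p + p by ring, yA_per, yA_per]
  · intro p hp h5
    unfold nu
    rw [sum_two_mul (hp.odd_of_ne_two (by omega)) (yA_per A p), yA_sum A hp h5]

theorem mean_yA (A : ℕ → ℕ) (z : ℕ) : ∏ p ∈ Ps z, (1 - nu (yA A) p / (p : ℝ)) = Gz z := by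
  unfold Gz GG nu
  apply Finset.prod_congr rfl
  intro p hp
  rw [yA_sum A (mem_Ps.1 hp).2.2 (mem_Ps.1 hp).1]

theorem mean_yA2 (A : ℕ → ℕ) (z : ℕ) :
    ∏ p ∈ Ps z, (1 - nu (fun p t => yA A p (2 * t)) p / (p : ℝ)) = Gz z := by
  unfold Gz GG nu
  apply Finset.prod_congr rfl
  intro p hp
  rw [mem_Ps] at hp
  rw [sum_two_mul (hp.2.2.odd_of_ne_two (by omega)) (yA_per A p), yA_sum A hp.2.2 hp.1]

theorem mean_wI (A : ℕ → ℕ) {r H : ℕ} (hH : 3 * H + 1 ≤ r) {I : Finset ℕ}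
    (hI : ∀ i ∈ I, i ≤ H) :
    ∏ p ∈ Ps r, (1 - nu (wI (yA A) I) p / (p : ℝ))
      = cc (Ps r \ Ps (3 * H + 1)) I.card * avgI (Ps (3 * H + 1)) (yA A) I := by
  have hun : Ps (3 * H + 1) ∪ (Ps r \ Ps (3 * H + 1)) = Ps r :=
    Finset.union_sdiff_of_subset (Ps_mono hH)
  have hs : SieveSys (Ps (3 * H + 1) ∪ (Ps r \ Ps (3 * H + 1))) (yA A) := by
    rw [hun]
    exact sieveSysA A r
  have h := wI_mean hs Finset.disjoint_sdiff (H := H) (by
    intro p hp t i hi j hj hij h1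
    rw [Finset.mem_sdiff, mem_Ps, mem_Ps] at hp
    obtain ⟨⟨h5, hpr, hpp⟩, hn⟩ := hp
    refine separatedA A hpp ?_ h5 t i j hi hj hij h1
    by_contra hc
    exact hn ⟨h5, by omega, hpp⟩) hI
  rw [hun] at h
  exact h

theorem fu : FUG := by
  intro k δ hδ α hα
  obtain ⟨K, hK⟩ := fundamental (κ := 2 * (k : ℝ) + 2) (by
    have : (0 : ℝ) ≤ k := Nat.cast_nonneg k
    linarith) hδ hα
  refine ⟨K, ?_⟩
  have hk0 : (0 : ℝ) ≤ k := Nat.cast_nonneg k
  filter_upwards [hK] with r hr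
  refine ⟨?_, ?_, ?_⟩
  · intro H hH I hI hIk A N
    have hadm : Adm (wI (yA A) I) (2 * (k : ℝ) + 2) := (wI_admA A).mono (by
      have : (I.card : ℝ) ≤ k := by exact_mod_cast hIk
      linarith)
    have h := hr (wI (yA A) I) hadm N
    rw [mean_wI A hH hI] at h
    simp only [wI_prod] at h
    exact h
  · intro A N
    have h := hr (yA A) ((adm_yA A).mono (by linarith)) N
    rw [mean_yA] at h
    exact h
  · intro A N
    have h := hr (fun p t => yA A p (2 * t)) ((adm_yA2 A).mono (by linarith)) N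
    rw [mean_yA2] at h
    exact h

end Pool.Agent.Helper32.BFT
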